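import Mathlib

set_option autoImplicit false

/-!
# Laws of minimal norm, Bessel's inequality for nearly orthogonal functions
-/

namespace Pool.Agent.H50.DM

open Finset

section

variable {V : Type*} [Fintype V]

/-- the scalar product of `L²(μ)`. -/
def ip (μ : V → ℝ) (f g : V → ℝ) : ℝ := ∑ x, μ x * (f x * g x)

/-- `η` is a probability law on the set `S`. -/
def LawOn (S : Set V) (η : V → ℝ) : Prop :=
  (∀ s, 0 ≤ η s) ∧ ∑ s, η s = 1 ∧ ∀ s, s ∉ S → η s = 0

/-- the mean of the functions `φ s` with respect to `η`. -/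
def mn (φ : V → V → ℝ) (η : V → ℝ) : V → ℝ := fun x => ∑ s, η s * φ s x

theorem ip_nonneg {μ : V → ℝ} (hμ : ∀ x, 0 ≤ μ x) (f : V → ℝ) : 0 ≤ ip μ f f :=
  Finset.sum_nonneg fun x _ => mul_nonneg (hμ x) (mul_self_nonneg _)

theorem ip_comm (μ f g : V → ℝ) : ip μ f g = ip μ g f := by
  unfold ip; exact Finset.sum_congr rfl fun x _ => by ring

theorem ip_add_left (μ f g h : V → ℝ) : ip μ (f + g) h = ip μ f h + ip μ g h := by
  unfold ip; rw [← Finset.sum_add_distrib]
  exact Finset.sum_congr rfl fun x _ => by simp only [Pi.add_apply]; ring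

theorem ip_smul_left (μ : V → ℝ) (c : ℝ) (f h : V → ℝ) : ip μ (c • f) h = c * ip μ f h := by
  unfold ip; rw [Finset.mul_sum]
  exact Finset.sum_congr rfl fun x _ => by simp only [Pi.smul_apply, smul_eq_mul]; ring

theorem ip_sub_left (μ f g h : V → ℝ) : ip μ (f - g) h = ip μ f h - ip μ g h := by
  unfold ip; rw [← Finset.sum_sub_distrib]
  exact Finset.sum_congr rfl fun x _ => by simp only [Pi.sub_apply]; ring

theorem ip_sub_right (μ f g h : V → ℝ) : ip μ f (g - h) = ip μ f g - ip μ f h := by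
  rw [ip_comm, ip_sub_left, ip_comm μ g f, ip_comm μ h f]

theorem ip_sum_left {ι : Type*} (μ : V → ℝ) (s : Finset ι) (F : ι → V → ℝ) (h : V → ℝ) :
    ip μ (∑ i ∈ s, F i) h = ∑ i ∈ s, ip μ (F i) h := by
  unfold ip
  rw [Finset.sum_comm]
  refine Finset.sum_congr rfl fun x _ => ?_
  rw [Finset.sum_apply, Finset.sum_mul, Finset.mul_sum]

/-- Cauchy–Schwarz. -/
theorem ip_sq_le {μ : V → ℝ} (hμ : ∀ x, 0 ≤ μ x) (f g : V → ℝ) :
    (ip μ f g) ^ 2 ≤ ip μ f f * ip μ g g := by
  have h := Finset.sum_mul_sq_le_sq_mul_sq (univ : Finset V) (fun x => Real.sqrt (μ x) * f x)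
    (fun x => Real.sqrt (μ x) * g x)
  have h1 : ∑ x, Real.sqrt (μ x) * f x * (Real.sqrt (μ x) * g x) = ip μ f g := by
    unfold ip
    refine Finset.sum_congr rfl fun x _ => ?_
    have := Real.mul_self_sqrt (hμ x)
    calc Real.sqrt (μ x) * f x * (Real.sqrt (μ x) * g x)
        = (Real.sqrt (μ x) * Real.sqrt (μ x)) * (f x * g x) := by ring
      _ = _ := by rw [this]
  have h2 : ∀ f : V → ℝ, ∑ x, (Real.sqrt (μ x) * f x) ^ 2 = ip μ f f := by
    intro f
    unfold ip
    refine Finset.sum_congr rfl fun x _ => ?_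
    have := Real.mul_self_sqrt (hμ x)
    calc (Real.sqrt (μ x) * f x) ^ 2
        = (Real.sqrt (μ x) * Real.sqrt (μ x)) * (f x * f x) := by ring
      _ = _ := by rw [this]
  rw [h1, h2, h2] at h
  exact h

/-- a law of minimal norm exists. -/
theorem exists_min_law {μ : V → ℝ} (φ : V → V → ℝ) {S : Set V}
    (hS : S.Nonempty) : ∃ η, LawOn S η ∧ ∀ η', LawOn S η' →
      ip μ (mn φ η) (mn φ η) ≤ ip μ (mn φ η') (mn φ η') := by
  classical
  let D : Set (V → ℝ) := {η | LawOn S η}
  have hD : D = stdSimplex ℝ V ∩ ⋂ v ∈ {v | v ∉ S}, {u | u v = 0} := by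
    ext u
    simp only [D, LawOn, stdSimplex, Set.mem_ofPred_eq, Set.mem_inter_iff, Set.mem_iInter]
    tauto
  have hcomp : IsCompact D := by
    rw [hD]
    refine (isCompact_stdSimplex ℝ V).inter_right ?_
    refine isClosed_biInter fun v _ => ?_
    exact isClosed_eq (continuous_apply v) continuous_const
  have hne : D.Nonempty := by
    obtain ⟨a, ha⟩ := hS
    refine ⟨Pi.single a 1, fun s => ?_, by simp, fun s hs => ?_⟩
    · by_cases h : s = a
      · subst h; simp
      · simp [h]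
    · have : s ≠ a := fun h => hs (h ▸ ha)
      simp [this]
  have hcont : Continuous (fun η : V → ℝ => ip μ (mn φ η) (mn φ η)) := by
    unfold ip mn
    fun_prop
  obtain ⟨η, hη, hmin⟩ := hcomp.exists_isMinOn hne hcont.continuousOn
  exact ⟨η, hη, fun η' hη' => hmin hη'⟩

theorem lawOn_convex {S : Set V} {η η' : V → ℝ} (h : LawOn S η) (h' : LawOn S η') {t : ℝ}
    (ht0 : 0 ≤ t) (ht1 : t ≤ 1) : LawOn S ((1 - t) • η + t • η') := by
  refine ⟨fun s => ?_, ?_, fun s hs => ?_⟩
  · simp only [Pi.add_apply, Pi.smul_apply, smul_eq_mul]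
    have h1 := h.1 s
    have h2 := h'.1 s
    have h3 : 0 ≤ 1 - t := by linarith
    positivity
  · simp only [Pi.add_apply, Pi.smul_apply, smul_eq_mul]
    rw [Finset.sum_add_distrib, ← Finset.mul_sum, ← Finset.mul_sum, h.2.1, h'.2.1]
    ring
  · simp only [Pi.add_apply, Pi.smul_apply, smul_eq_mul]
    rw [h.2.2 s hs, h'.2.2 s hs]
    ring

theorem mn_lin (φ : V → V → ℝ) (η η' : V → ℝ) (a b : ℝ) :
    mn φ (a • η + b • η') = a • mn φ η + b • mn φ η' := by
  ext x
  simp only [mn, Pi.add_apply, Pi.smul_apply, smul_eq_mul, Finset.mul_sum]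
  rw [← Finset.sum_add_distrib]
  exact Finset.sum_congr rfl fun s _ => by ring

/-- the parallelogram inequality at a law of minimal norm. -/
theorem min_law_parallelogram {μ : V → ℝ} (φ : V → V → ℝ) {S : Set V}
    {η η' : V → ℝ} (hη : LawOn S η) (hη' : LawOn S η')
    (hmin : ∀ η'', LawOn S η'' → ip μ (mn φ η) (mn φ η) ≤ ip μ (mn φ η'') (mn φ η'')) :
    ip μ (mn φ η' - mn φ η) (mn φ η' - mn φ η) ≤
      ip μ (mn φ η') (mn φ η') - ip μ (mn φ η) (mn φ η) := by
  -- `⟨f, f' - f⟩ ≥ 0`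
  set f := mn φ η with hf
  set f' := mn φ η' with hf'
  have key : 0 ≤ ip μ f (f' - f) := by
    by_contra hneg
    push Not at hneg
    -- N(t) = ‖f + t (f' - f)‖²
    have hN : ∀ t : ℝ, 0 ≤ t → t ≤ 1 → 0 ≤ 2 * t * ip μ f (f' - f) +
        t ^ 2 * ip μ (f' - f) (f' - f) := by
      intro t ht0 ht1
      have h1 := hmin _ (lawOn_convex hη hη' ht0 ht1)
      rw [mn_lin, ← hf, ← hf'] at h1
      have h2 : (1 - t) • f + t • f' = f + t • (f' - f) := by
        ext x; simp only [Pi.add_apply, Pi.smul_apply, smul_eq_mul, Pi.sub_apply]; ring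
      rw [h2, ip_add_left, ip_smul_left, ip_comm μ f (f + _), ip_comm μ (f' - f) (f + _),
        ip_add_left, ip_add_left, ip_smul_left, ip_smul_left, ip_comm μ (f' - f) f] at h1
      nlinarith
    set a := ip μ f (f' - f) with ha
    set q := ip μ (f' - f) (f' - f) with hq
    rcases le_or_gt q 0 with hq0 | hq0
    · have := hN 1 zero_le_one le_rfl
      nlinarith
    · -- choose t = min 1 (-a / q)
      rcases le_or_gt (-a / q) 1 with h1 | h1
      · have h0 : 0 < -a / q := div_pos (by linarith) hq0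
        have := hN (-a / q) h0.le h1
        have h3 : (-a / q) ^ 2 * q = (-a / q) * (-a) := by
          field_simp
        rw [h3] at this
        nlinarith
      · have := hN 1 zero_le_one le_rfl
        rw [lt_div_iff₀ hq0] at h1
        nlinarith
  have h1 : ip μ (f' - f) (f' - f) = ip μ f' f' - ip μ f f - 2 * ip μ f (f' - f) := by
    rw [ip_sub_left, ip_sub_right μ f' f' f, ip_sub_right μ f f' f, ip_comm μ f' f]
    ring
  rw [h1]
  linarith

/-- Bessel's inequality for nearly orthogonal functions. -/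
theorem bessel_near {μ : V → ℝ} (hμ : ∀ x, 0 ≤ μ x) (hμ1 : ∑ x, μ x = 1) (r : ℕ) (δ : ℝ)
    (hδ : 0 ≤ δ) (g : Fin r → V → ℝ) (hg : ∀ i x, |g i x| ≤ 1)
    (horth : ∀ i j, i ≠ j → |ip μ (g i) (g j)| ≤ δ) (F : V → ℝ) (hF : ∀ x, |F x| ≤ 1) :
    ∑ i, (ip μ F (g i)) ^ 2 ≤ 1 + r * δ := by
  classical
  have hle1 : ∀ f : V → ℝ, (∀ x, |f x| ≤ 1) → ip μ f f ≤ 1 := by
    intro f hf
    unfold ip
    rw [← hμ1]
    refine Finset.sum_le_sum fun x _ => ?_
    have h1 : f x * f x ≤ 1 := by
      have := hf x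
      rw [abs_le] at this
      nlinarith
    have := hμ x
    nlinarith
  set c : Fin r → ℝ := fun i => ip μ F (g i) with hc
  set A : ℝ := ∑ i, (c i) ^ 2 with hA
  have hA0 : 0 ≤ A := Finset.sum_nonneg fun i _ => sq_nonneg _
  set G : V → ℝ := ∑ i, c i • g i with hG
  have h1 : ip μ G F = A := by
    rw [hG, ip_sum_left]
    refine Finset.sum_congr rfl fun i _ => ?_
    rw [ip_smul_left, ip_comm μ (g i) F]
    simp only [hc]
    ring
  have h2 : ip μ G G ≤ (1 + r * δ) * A := by
    have h3 : ip μ G G = ∑ i, ∑ j, c i * c j * ip μ (g i) (g j) := by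
      rw [hG, ip_sum_left]
      refine Finset.sum_congr rfl fun i _ => ?_
      rw [ip_smul_left, ip_comm, ip_sum_left, Finset.mul_sum]
      refine Finset.sum_congr rfl fun j _ => ?_
      rw [ip_smul_left, ip_comm μ (g j) (g i)]
      ring
    have h4 : ∀ i j, c i * c j * ip μ (g i) (g j) ≤
        (if i = j then c i ^ 2 else 0) + δ * ((c i ^ 2 + c j ^ 2) / 2) := by
      intro i j
      by_cases hij : i = j
      · subst hij
        rw [if_pos rfl]
        have h5 := hle1 (g i) (hg i)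
        have h6 := ip_nonneg hμ (g i)
        have h7 : 0 ≤ c i ^ 2 := sq_nonneg _
        have h8 : c i * c i * ip μ (g i) (g i) ≤ c i ^ 2 := by nlinarith
        have h9 : 0 ≤ δ * ((c i ^ 2 + c i ^ 2) / 2) := by positivity
        linarith
      · rw [if_neg hij, zero_add]
        have h5 := horth i j hij
        have h6 : |c i * c j| ≤ (c i ^ 2 + c j ^ 2) / 2 := by
          rw [abs_mul, ← sq_abs (c i), ← sq_abs (c j)]
          nlinarith [sq_nonneg (|c i| - |c j|)]
        calc c i * c j * ip μ (g i) (g j) ≤ |c i * c j * ip μ (g i) (g j)| := le_abs_self _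
          _ = |ip μ (g i) (g j)| * |c i * c j| := by rw [abs_mul, mul_comm]
          _ ≤ δ * ((c i ^ 2 + c j ^ 2) / 2) :=
            mul_le_mul h5 h6 (abs_nonneg _) hδ
    rw [h3]
    refine (Finset.sum_le_sum fun i _ => Finset.sum_le_sum fun j _ => h4 i j).trans ?_
    have h5 : ∑ i : Fin r, ∑ j : Fin r, ((if i = j then c i ^ 2 else 0) +
        δ * ((c i ^ 2 + c j ^ 2) / 2)) = A + r * δ * A := by
      have h6 : ∀ i : Fin r, ∑ j : Fin r, ((if i = j then c i ^ 2 else 0) +
          δ * ((c i ^ 2 + c j ^ 2) / 2)) = c i ^ 2 + δ * ((r * c i ^ 2 + A) / 2) := by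
        intro i
        rw [Finset.sum_add_distrib, Finset.sum_ite_eq, if_pos (mem_univ _), ← Finset.mul_sum,
          ← Finset.sum_div, Finset.sum_add_distrib, Finset.sum_const, card_univ, Fintype.card_fin,
          nsmul_eq_mul]
      simp_rw [h6]
      rw [Finset.sum_add_distrib, ← Finset.mul_sum, ← Finset.sum_div, Finset.sum_add_distrib,
        ← Finset.mul_sum, Finset.sum_const, card_univ, Fintype.card_fin, nsmul_eq_mul]
      ring
    rw [h5]
    linarith
  have h3 := ip_sq_le hμ G F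
  rw [h1] at h3
  have h4 := hle1 F hF
  have h5 := ip_nonneg hμ F
  have h6 := ip_nonneg hμ G
  have h7 : A ^ 2 ≤ (1 + r * δ) * A := by
    calc A ^ 2 ≤ ip μ G G * ip μ F F := h3
      _ ≤ ip μ G G * 1 := mul_le_mul_of_nonneg_left h4 h6
      _ ≤ _ := by linarith
  rcases hA0.lt_or_eq with h8 | h8
  · by_contra hcon
    push Not at hcon
    nlinarith
  · rw [← h8]; positivity

end

end Pool.Agent.H50.DM
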