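import Pool.Agent.H71.DM.Targets
import Pool.Agent.H71.DM.Basic
import Pool.Agent.H50.DM.MinNorm

set_option autoImplicit false

/-!
# BES: the Bessel lemma
-/

namespace Pool.Agent.H50.DM

open Pool.Agent.H71.DM Finset Filter

theorem bes (hRD : RichDiffStmt) : BesselStmt := by
  classical
  intro ε hε
  obtain ⟨r, hr⟩ := exists_nat_gt (2 / ε)
  have hr0 : (0 : ℝ) < r := lt_trans (by positivity) hr
  have hrε : 2 < r * ε := by rwa [div_lt_iff₀ hε] at hr
  refine ⟨1 / (2 * r), by positivity, ?_⟩
  intro G S μ f hμ hf hhom Om _ w hw F hF hB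
  set δ : ℝ := 1 / (2 * r) with hδdef
  have hδ : 0 < δ := by positivity
  set B : ∀ n, Set (G.V n) := fun n => {s | s ∈ S n ∧ ε < ex (w n) (fun o =>
    (ex (μ n) (fun a => F n o a * (ind (G.adj n a s) - f n a))) ^ 2)} with hBdef
  let hh : ∀ n, G.V n → G.V n → ℝ := fun n s a => ind (G.adj n a s) - f n a
  have hh1 : ∀ n s a, |hh n s a| ≤ 1 := by
    intro n s a
    have h1 := ind_nonneg (G.adj n a s)
    have h2 := ind_le_one (G.adj n a s)
    have h3 := hf n a
    simp only [hh]
    rw [abs_le]
    constructor <;> linarith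
  have step : ∀ k : ℕ, ∃ s : Fin k → ∀ n, G.V n, ∀ᶠ n in UU, (∀ i, s i n ∈ B n) ∧
      ∀ i j, i ≠ j → |ip (μ n) (hh n (s i n)) (hh n (s j n))| ≤ δ := by
    intro k
    induction k with
    | zero =>
      exact ⟨fun i => i.elim0, Eventually.of_forall fun n => ⟨fun i => i.elim0, fun i => i.elim0⟩⟩
    | succ k ih =>
      obtain ⟨s, hs⟩ := ih
      let Z : Fin k × Bool → ∀ n, Set (G.V n) := fun p n => {t | t ∈ S n ∧
        δ < ex (μ n) (fun a => (if p.2 then hh n (s p.1 n) a else - hh n (s p.1 n) a) *
          (ind (G.adj n a t) - f n a))}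
      have hZ : ∀ p, ¬ Rich G (Z p) := by
        intro p
        refine hhom (fun n a => if p.2 then hh n (s p.1 n) a else - hh n (s p.1 n) a) ?_
        intro n a
        split_ifs
        · exact hh1 _ _ _
        · rw [abs_neg]; exact hh1 _ _ _
      have hrich := hRD G (Fin k × Bool) B Z hB hZ
      set B' : ∀ n, Set (G.V n) := fun n => {t | t ∈ B n ∧ ∀ p, t ∉ Z p n} with hB'
      let s' : ∀ n, G.V n := fun n => if h : (B' n).Nonempty then h.some else Classical.arbitrary _
      refine ⟨Fin.snoc (α := fun _ => ∀ n, G.V n) s s', ?_⟩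
      filter_upwards [hs, hrich 0] with n h1 h2
      have h3 : s' n ∈ B' n := by
        have : (B' n).Nonempty := h2.nonempty
        simp only [s', dif_pos this]
        exact this.some_mem
      have h4 : ∀ i : Fin k, |ip (μ n) (hh n (s i n)) (hh n (s' n))| ≤ δ := by
        intro i
        have h5 := h3.2 (i, true)
        have h6 := h3.2 (i, false)
        simp only [Z, Set.mem_ofPred_eq, not_and, not_lt, if_true, Bool.false_eq_true,
          if_false] at h5 h6
        have h7 := h5 h3.1.1
        have h8 := h6 h3.1.1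
        have e1 : ex (μ n) (fun a => hh n (s i n) a * (ind (G.adj n a (s' n)) - f n a)) =
            ip (μ n) (hh n (s i n)) (hh n (s' n)) := rfl
        have e2 : ex (μ n) (fun a => - hh n (s i n) a * (ind (G.adj n a (s' n)) - f n a)) =
            - ip (μ n) (hh n (s i n)) (hh n (s' n)) := by
          rw [← e1, ← ex_neg]
          congr 1
          funext a
          ring
        rw [e1] at h7
        rw [e2] at h8
        rw [abs_le]
        constructor <;> linarith
      refine ⟨?_, ?_⟩
      · intro i
        refine Fin.lastCases ?_ (fun i => ?_) i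
        · rw [Fin.snoc_last]; exact h3.1
        · rw [Fin.snoc_castSucc]; exact h1.1 i
      · intro i j
        refine Fin.lastCases ?_ (fun i => ?_) i
        · refine Fin.lastCases ?_ (fun j => ?_) j
          · intro h; exact absurd rfl h
          · intro _
            rw [Fin.snoc_last, Fin.snoc_castSucc, ip_comm]
            exact h4 j
        · refine Fin.lastCases ?_ (fun j => ?_) j
          · intro _
            rw [Fin.snoc_last, Fin.snoc_castSucc]
            exact h4 i
          · intro h
            rw [Fin.snoc_castSucc, Fin.snoc_castSucc]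
            exact h1.2 i j (fun h' => h (by rw [h']))
  obtain ⟨s, hs⟩ := step r
  obtain ⟨n, hn1, hn2⟩ := hs.exists
  have hbes : ∀ o, ∑ i, (ip (μ n) (F n o) (hh n (s i n))) ^ 2 ≤ 1 + r * δ := by
    intro o
    exact bessel_near (hμ n).1 (hμ n).2 r δ hδ.le (fun i => hh n (s i n))
      (fun i a => hh1 n _ a) (fun i j hij => hn2 i j hij) (F n o) (hF n o)
  have h1 : ∑ i, ex (w n) (fun o => (ip (μ n) (F n o) (hh n (s i n))) ^ 2) ≤ 1 + r * δ := by
    rw [← ex_sum]
    exact ex_le (hw n) (fun o _ => hbes o)
  have h2 : (r : ℝ) * ε ≤ ∑ i, ex (w n) (fun o => (ip (μ n) (F n o) (hh n (s i n))) ^ 2) := by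
    have h3 : ∑ _i : Fin r, ε = (r : ℝ) * ε := by
      rw [Finset.sum_const, card_univ, Fintype.card_fin, nsmul_eq_mul]
    rw [← h3]
    refine Finset.sum_le_sum fun i _ => ?_
    exact (hn1 i).2.le
  have h3 : (r : ℝ) * δ = 1 / 2 := by
    rw [hδdef]; field_simp
  linarith

end Pool.Agent.H50.DM
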