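import Pool.Agent.H71.DM.Targets
import Pool.Agent.H71.DM.Basic

set_option autoImplicit false

/-!
# The box theorem (Kővári–Sós–Turán for `j`-partite hypergraphs), ordered form
-/

namespace Pool.Agent.H50.DM

open Pool.Agent.H71.DM

open Finset

/-- Every set of positive density in the grid `[L]^j` contains a box `∏ {l q, h q}`, `l q < h q`. -/
def BoxStmt0 : Prop := ∀ (j : ℕ) (γ : ℝ), 0 < γ → ∃ L0 : ℕ, ∀ L : ℕ, L0 ≤ L →
    ∀ D : Finset (Fin j → Fin L), γ * (L : ℝ) ^ j ≤ D.card →
      ∃ l h : Fin j → Fin L, (∀ q, l q < h q) ∧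
        ∀ m : Fin j → Fin L, (∀ q, m q = l q ∨ m q = h q) → m ∈ D

theorem box0 : BoxStmt0 := by
  classical
  intro j
  induction j with
  | zero =>
    intro γ hγ
    refine ⟨0, fun L _ D hD => ?_⟩
    have hne : D.Nonempty := by
      rw [← card_pos]
      have : (0 : ℝ) < D.card := lt_of_lt_of_le (by simpa using hγ) hD
      exact_mod_cast this
    obtain ⟨x, hx⟩ := hne
    refine ⟨x, x, fun q => q.elim0, fun m _ => ?_⟩
    rwa [Subsingleton.elim m x]
  | succ j ih =>
    intro γ hγ
    obtain ⟨L1, hL1⟩ := ih (γ ^ 3 / 16) (by positivity)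
    refine ⟨max L1 (Nat.ceil (4 / γ) + 1), fun L hL D hD => ?_⟩
    have hLL1 : L1 ≤ L := (le_max_left _ _).trans hL
    have hL4 : 4 / γ ≤ L := by
      have h1 : Nat.ceil (4 / γ) + 1 ≤ L := (le_max_right _ _).trans hL
      have h2 : (Nat.ceil (4 / γ) : ℝ) ≤ L := by exact_mod_cast (Nat.le_succ _).trans h1
      exact (Nat.le_ceil _).trans h2
    have hLpos : (0 : ℝ) < L := lt_of_lt_of_le (by positivity) hL4
    have hγL : 4 ≤ γ * L := by
      rw [div_le_iff₀ hγ] at hL4
      linarith
    -- fibres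
    let F : (Fin j → Fin L) → Finset (Fin L) :=
      fun x => univ.filter (fun y => (Fin.cons y x : Fin (j + 1) → Fin L) ∈ D)
    have hsum : (D.card : ℝ) = ∑ x, ((F x).card : ℝ) := by
      have h1 : D.card = ∑ x, (F x).card := by
        rw [← Finset.card_sigma]
        symm
        refine Finset.card_bij (fun p _ => (Fin.cons p.2 p.1 : Fin (j + 1) → Fin L)) ?_ ?_ ?_
        · rintro ⟨x, y⟩ hp
          rw [mem_sigma] at hp
          exact (mem_filter.mp hp.2).2
        · rintro ⟨x, y⟩ _ ⟨x', y'⟩ _ h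
          obtain ⟨h1, h2⟩ := Fin.cons_injective2 h
          cases h1; cases h2; rfl
        · intro z hz
          refine ⟨⟨Fin.tail z, z 0⟩, ?_, by simp⟩
          rw [mem_sigma]
          exact ⟨mem_univ _, mem_filter.mpr ⟨mem_univ _, by simpa using hz⟩⟩
      rw [h1]; push_cast; rfl
    have hFle : ∀ x, ((F x).card : ℝ) ≤ L := by
      intro x
      have := card_le_univ (F x)
      rw [Fintype.card_fin] at this
      exact_mod_cast this
    -- the number of ordered pairs y < y' in the fibre
    let Pr : (Fin j → Fin L) → Finset (Fin L × Fin L) :=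
      fun x => ((F x) ×ˢ (F x)).filter (fun p => p.1 < p.2)
    have hPr : ∀ x, ((F x).card : ℝ) * ((F x).card - 1) / 2 ≤ ((Pr x).card : ℝ) := by
      intro x
      have h1 : ((F x) ×ˢ (F x)).card ≤ (F x).card + 2 * (Pr x).card := by
        have hsub : (F x) ×ˢ (F x) ⊆
            ((F x).image (fun y => (y, y)) ∪ Pr x) ∪ (Pr x).image Prod.swap := by
          rintro ⟨a, b⟩ hab
          rw [mem_product] at hab
          rcases lt_trichotomy a b with h | h | h
          · exact mem_union_left _ (mem_union_right _ (mem_filter.mpr ⟨mem_product.mpr hab, h⟩))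
          · subst h
            exact mem_union_left _ (mem_union_left _ (mem_image.mpr ⟨a, hab.1, rfl⟩))
          · exact mem_union_right _ (mem_image.mpr
              ⟨(b, a), mem_filter.mpr ⟨mem_product.mpr ⟨hab.2, hab.1⟩, h⟩, rfl⟩)
        have h2 := card_le_card hsub
        have h3 := card_union_le ((F x).image (fun y => (y, y)) ∪ Pr x) ((Pr x).image Prod.swap)
        have h4 := card_union_le ((F x).image (fun y => (y, y))) (Pr x)
        have h5 : ((F x).image (fun y => (y, y))).card ≤ (F x).card := card_image_le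
        have h6 : ((Pr x).image Prod.swap).card ≤ (Pr x).card := card_image_le
        omega
      rw [card_product] at h1
      have h2 : ((F x).card : ℝ) * (F x).card ≤ (F x).card + 2 * (Pr x).card := by
        exact_mod_cast h1
      linarith
    -- lower bound for the total number of pairs
    have hpt : ∀ x, (γ ^ 2 / 16) * L ^ 2 * (((F x).card : ℝ) / L - γ / 2) ≤ ((Pr x).card : ℝ) := by
      intro x
      have h0 : (0 : ℝ) ≤ (Pr x).card := Nat.cast_nonneg _
      rcases le_or_gt (γ * L / 2) ((F x).card : ℝ) with h | h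
      · refine le_trans ?_ (hPr x)
        have h1 : ((F x).card : ℝ) / L - γ / 2 ≤ 1 := by
          have : ((F x).card : ℝ) / L ≤ 1 := by
            rw [div_le_one hLpos]; exact hFle x
          linarith
        have h2 : (γ ^ 2 / 16) * (L : ℝ) ^ 2 * (((F x).card : ℝ) / L - γ / 2) ≤
            (γ ^ 2 / 16) * L ^ 2 := by
          have : (0 : ℝ) ≤ (γ ^ 2 / 16) * (L : ℝ) ^ 2 := by positivity
          nlinarith
        refine h2.trans ?_
        have h3 : γ * L / 4 ≤ ((F x).card : ℝ) - 1 := by linarith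
        have h4 : (γ * L / 2) * (γ * L / 4) ≤ ((F x).card : ℝ) * (((F x).card : ℝ) - 1) := by
          apply mul_le_mul h h3 (by positivity) (Nat.cast_nonneg _)
        nlinarith
      · refine le_trans ?_ h0
        have h1 : ((F x).card : ℝ) / L - γ / 2 ≤ 0 := by
          have : ((F x).card : ℝ) / L ≤ γ / 2 := by
            rw [div_le_iff₀ hLpos]; linarith
          linarith
        have : (0 : ℝ) ≤ (γ ^ 2 / 16) * (L : ℝ) ^ 2 := by positivity
        nlinarith
    have hcardfun : (Fintype.card (Fin j → Fin L) : ℝ) = (L : ℝ) ^ j := by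
      rw [Fintype.card_fun, Fintype.card_fin, Fintype.card_fin]; push_cast; rfl
    have htot : (γ ^ 3 / 32) * (L : ℝ) ^ 2 * (L : ℝ) ^ j ≤ ∑ x, ((Pr x).card : ℝ) := by
      refine le_trans ?_ (Finset.sum_le_sum fun x _ => hpt x)
      rw [← Finset.mul_sum, Finset.sum_sub_distrib, ← Finset.sum_div, ← hsum]
      rw [Finset.sum_const, card_univ, nsmul_eq_mul, hcardfun]
      have h1 : γ * (L : ℝ) ^ j ≤ (D.card : ℝ) / L := by
        rw [le_div_iff₀ hLpos]
        calc γ * (L : ℝ) ^ j * L = γ * (L : ℝ) ^ (j + 1) := by ring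
          _ ≤ _ := hD
      have h2 : γ / 2 * (L : ℝ) ^ j ≤ (D.card : ℝ) / L - (L : ℝ) ^ j * (γ / 2) := by
        linarith
      have h3 : (0 : ℝ) ≤ (γ ^ 2 / 16) * (L : ℝ) ^ 2 := by positivity
      calc (γ ^ 3 / 32) * (L : ℝ) ^ 2 * (L : ℝ) ^ j
          = (γ ^ 2 / 16) * (L : ℝ) ^ 2 * (γ / 2 * (L : ℝ) ^ j) := by ring
        _ ≤ _ := mul_le_mul_of_nonneg_left h2 h3
    -- double counting
    let T : Finset (Fin L × Fin L) := univ.filter (fun p => p.1 < p.2)
    let G : Fin L × Fin L → Finset (Fin j → Fin L) :=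
      fun p => univ.filter (fun x => p.1 ∈ F x ∧ p.2 ∈ F x)
    have hdc : ∑ x, ((Pr x).card : ℝ) = ∑ p ∈ T, ((G p).card : ℝ) := by
      have h1 : ∀ x, ((Pr x).card : ℝ) = ∑ p ∈ T, (if p.1 ∈ F x ∧ p.2 ∈ F x then (1 : ℝ) else 0) := by
        intro x
        rw [← Finset.sum_filter, Finset.sum_const, nsmul_eq_mul, mul_one]
        congr 2
        ext p
        simp only [Pr, T, mem_filter, mem_product, mem_univ, true_and]
        tauto
      have h2 : ∀ p, ((G p).card : ℝ) = ∑ x, (if p.1 ∈ F x ∧ p.2 ∈ F x then (1 : ℝ) else 0) := by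
        intro p
        rw [← Finset.sum_filter, Finset.sum_const, nsmul_eq_mul, mul_one]
      simp_rw [h1, h2]
      rw [Finset.sum_comm]
    have hTcard : (T.card : ℝ) ≤ (L : ℝ) ^ 2 / 2 := by
      have h1 : 2 * T.card ≤ L * L := by
        have hdisj : Disjoint T (T.image Prod.swap) := by
          rw [Finset.disjoint_left]
          rintro ⟨a, b⟩ h1 h2
          obtain ⟨⟨c, d⟩, h3, h4⟩ := mem_image.mp h2
          simp only [Prod.swap_prod_mk, Prod.mk.injEq] at h4
          obtain ⟨rfl, rfl⟩ := h4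
          exact lt_asymm (mem_filter.mp h1).2 (mem_filter.mp h3).2
        have h2 := card_le_univ (T ∪ T.image Prod.swap)
        rw [card_union_of_disjoint hdisj, card_image_of_injective _ Prod.swap_injective,
          Fintype.card_prod, Fintype.card_fin] at h2
        omega
      have h2 : (2 : ℝ) * T.card ≤ L * L := by exact_mod_cast h1
      nlinarith
    obtain ⟨p, hpT, hp⟩ : ∃ p ∈ T, γ ^ 3 / 16 * (L : ℝ) ^ j ≤ ((G p).card : ℝ) := by
      by_contra hcon
      push Not at hcon
      have hTne : T.Nonempty := by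
        rw [Finset.nonempty_iff_ne_empty]
        intro h
        rw [hdc, h, Finset.sum_empty] at htot
        have : (0 : ℝ) < (γ ^ 3 / 32) * (L : ℝ) ^ 2 * (L : ℝ) ^ j := by positivity
        linarith
      have h1 : ∑ p ∈ T, ((G p).card : ℝ) < ∑ _p ∈ T, (γ ^ 3 / 16 * (L : ℝ) ^ j) :=
        Finset.sum_lt_sum_of_nonempty hTne hcon
      rw [Finset.sum_const, nsmul_eq_mul, ← hdc] at h1
      have h2 : (T.card : ℝ) * (γ ^ 3 / 16 * (L : ℝ) ^ j) ≤
          (L : ℝ) ^ 2 / 2 * (γ ^ 3 / 16 * (L : ℝ) ^ j) :=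
        mul_le_mul_of_nonneg_right hTcard (by positivity)
      nlinarith
    obtain ⟨l, h, hlh, hbox⟩ := hL1 L hLL1 (G p) hp
    refine ⟨Fin.cons p.1 l, Fin.cons p.2 h, ?_, ?_⟩
    · intro q
      refine Fin.cases ?_ (fun q => ?_) q
      · simpa using (mem_filter.mp hpT).2
      · simpa using hlh q
    · intro m hm
      have h1 : Fin.tail m ∈ G p := by
        apply hbox
        intro q
        simpa [Fin.tail] using hm q.succ
      have h2 := (mem_filter.mp h1).2
      have h3 : m 0 ∈ F (Fin.tail m) := by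
        rcases hm 0 with h | h
        · rw [h]; simpa using h2.1
        · rw [h]; simpa using h2.2
      have h4 := (mem_filter.mp h3).2
      simpa using h4

/-- the box theorem. -/
theorem box : Pool.Agent.H71.DM.BoxStmt := by
  intro j ρ hρ
  obtain ⟨L0, hL0⟩ := box0 j ρ hρ
  refine ⟨max L0 1, le_max_right _ _, fun D hD => ?_⟩
  refine hL0 (max L0 1) (le_max_left _ _) D ?_
  rw [Fintype.card_fun, Fintype.card_fin, Fintype.card_fin] at hD
  push_cast at hD ⊢
  exact hD

end Pool.Agent.H50.DM
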