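import Pool.Agent.H71.DM.Targets
import Pool.Agent.H71.DM.Basic

set_option autoImplicit false

/-!
# FIN: the final theorem from the unavoidability of poset tournaments
-/

namespace Pool.Agent.H50.DM

open Pool.Agent.H71.DM Finset Filter

/-- poset tournaments are contained in every tournament of large domination number. -/
theorem exists_bound (hU : UnavoidStmt) (R : ℕ → ℕ → Prop) (m : ℕ) (hR1 : ∀ k l, R k l → k < l)
    (hR2 : ∀ k l m, R k l → R l m → R k m) :
    ∃ K : ℕ, ∀ (n : ℕ) (adj : Fin n → Fin n → Prop),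
      (∀ u v : Fin n, adj u v → ¬ adj v u) →
      (∀ u v : Fin n, u ≠ v → adj u v ∨ adj v u) →
      (∀ S : Finset (Fin n), (∀ v : Fin n, v ∈ S ∨ ∃ u ∈ S, adj u v) → K ≤ S.card) →
      ∃ x : Fin m → Fin n, Pat adj (fun a b => ¬ R a b) m x := by
  classical
  by_contra hcon
  push Not at hcon
  choose N adj hasym htot hdom hno using fun K : ℕ => hcon (K + 1)
  have hne : ∀ K, Nonempty (Fin (N K)) := by
    intro K
    by_contra hemp
    rw [not_nonempty_iff] at hemp
    have := hdom K ∅ (fun v => (hemp.false v).elim)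
    simp at this
  let G : TSeq :=
    { V := fun K => Fin (N K)
      ft := fun K => inferInstance
      de := fun K => inferInstance
      ne := hne
      adj := adj
      asymm := hasym
      total := htot }
  have hrich : Rich G (fun _ => Set.univ) := by
    intro k
    filter_upwards [ev_ge k] with n hn D hD
    by_contra hc
    push Not at hc
    have hdomD : ∀ v : Fin (N n), v ∈ D ∨ ∃ u ∈ D, adj n u v := by
      intro v
      by_contra hv
      push Not at hv
      obtain ⟨d, hd, hvd⟩ := hc v (Set.mem_univ v)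
      have hne' : v ≠ d := fun h => hv.1 (h ▸ hd)
      rcases htot n v d hne' with h | h
      · exact hvd h
      · exact hv.2 d hd h
    have := hdom n D hdomD
    omega
  refine hU G R m hR1 hR2 hrich ?_
  exact Eventually.of_forall fun n x => hno n x

theorem fin (hU : UnavoidStmt) (hP : PosetStmt) : FinalStmt := by
  classical
  intro c hc
  obtain ⟨m, R, hR1, hR2, hR3⟩ := hP (c - 1)
  obtain ⟨K, hK⟩ := exists_bound hU R m hR1 hR2
  refine ⟨K + 1, m + 1, by omega, by omega, ?_⟩
  intro n adj hasym htot hdom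
  obtain ⟨f, hf⟩ := hK n adj hasym htot (fun S hS => (Nat.le_succ K).trans (hdom S hS))
  refine ⟨univ.image f, card_image_le.trans (by simp), ?_⟩
  intro S hSX hS
  by_contra hlt
  have hcard : S.card ≤ c - 1 := by omega
  have hpre : ∀ s : Fin n, ∃ i : Option (Fin m), s ∈ S → ∃ j, i = some j ∧ f j = s := by
    intro s
    by_cases hs : s ∈ S
    · obtain ⟨j, -, hj⟩ := mem_image.mp (hSX hs)
      exact ⟨some j, fun _ => ⟨j, rfl, hj⟩⟩
    · exact ⟨none, fun h => absurd h hs⟩
  choose g hg using hpre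
  let J : Finset ℕ := (range m).filter (fun d => ∃ s ∈ S, ∃ j : Fin m, g s = some j ∧ (j : ℕ) = d)
  have hJ : J.card ≤ c - 1 := by
    refine le_trans ?_ hcard
    have h1 : J.image some ⊆ S.image (fun s => (g s).map (fun j : Fin m => (j : ℕ))) := by
      intro x hx
      obtain ⟨d, hd, rfl⟩ := mem_image.mp hx
      obtain ⟨s, hs, j, h, hj⟩ := (mem_filter.mp hd).2
      exact mem_image.mpr ⟨s, hs, by rw [h, ← hj]; rfl⟩
    have h2 := card_le_card h1
    rw [card_image_of_injective _ (Option.some_injective _)] at h2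
    exact h2.trans card_image_le
  obtain ⟨v, hv, hc0⟩ := hR3 J hJ (fun d hd => mem_range.mp (mem_filter.mp hd).1)
  have hbeat : ∀ s ∈ S, adj (f ⟨v, hv⟩) s := by
    intro s hs
    obtain ⟨j, hj, hjs⟩ := hg s hs
    have hjJ : (j : ℕ) ∈ J :=
      mem_filter.mpr ⟨mem_range.mpr j.2, s, hs, j, hj, rfl⟩
    rw [← hjs]
    rcases hc0 j hjJ with h | ⟨h1, h2⟩
    · exact (hf j ⟨v, hv⟩ (hR1 _ _ h)).2 (fun hn => hn h)
    · exact (hf ⟨v, hv⟩ j h1).1 h2
  rcases hS (f ⟨v, hv⟩) (mem_image_of_mem _ (mem_univ _)) with h | ⟨u, hu, h⟩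
  · exact hasym _ _ (hbeat _ h) (hbeat _ h)
  · exact hasym _ _ h (hbeat u hu)

end Pool.Agent.H50.DM
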