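import Pool.Agent.H71.DM.Targets
import Pool.Agent.H71.DM.Basic
import Pool.Agent.H50.DM.MinNorm

set_option autoImplicit false

/-!
# HOM: homogeneous subsets of rich sets
-/

namespace Pool.Agent.H50.DM

open Pool.Agent.H71.DM Finset Filter

section

variable {V : Type} [Fintype V]

/-- the functions `a ↦ [a → s]`. -/
noncomputable def hs (adj : V → V → Prop) : V → V → ℝ := fun s a => ind (adj a s)

theorem mn_nonneg (adj : V → V → Prop) {S : Set V} {η : V → ℝ} (h : LawOn S η) (a : V) :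
    0 ≤ mn (hs adj) η a :=
  Finset.sum_nonneg fun s _ => mul_nonneg (h.1 s) (ind_nonneg _)

theorem mn_le_one (adj : V → V → Prop) {S : Set V} {η : V → ℝ} (h : LawOn S η) (a : V) :
    mn (hs adj) η a ≤ 1 := by
  rw [← h.2.1]
  exact Finset.sum_le_sum fun s _ =>
    mul_le_of_le_one_right (h.1 s) (ind_le_one _)

theorem ip_self_le_one {μ : V → ℝ} (hμ : IsProb μ) {f : V → ℝ} (h0 : ∀ a, 0 ≤ f a)
    (h1 : ∀ a, f a ≤ 1) : ip μ f f ≤ 1 := by
  unfold ip
  rw [← hμ.2]
  refine Finset.sum_le_sum fun x _ => ?_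
  have := hμ.1 x
  have h2 : f x * f x ≤ 1 := by nlinarith [h0 x, h1 x]
  exact mul_le_of_le_one_right this h2

open Classical in
/-- the minimal norm of a mean of the functions `hs adj s`, `s ∈ S`. -/
noncomputable def vl (adj : V → V → Prop) (μ : V → ℝ) (S : Set V) : ℝ :=
  if h : S.Nonempty then
    ip μ (mn (hs adj) (exists_min_law (μ := μ) (hs adj) h).choose)
      (mn (hs adj) (exists_min_law (μ := μ) (hs adj) h).choose)
  else 0

theorem vl_spec (adj : V → V → Prop) (μ : V → ℝ) {S : Set V} (h : S.Nonempty) :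
    ∃ η, LawOn S η ∧ (∀ η', LawOn S η' →
      ip μ (mn (hs adj) η) (mn (hs adj) η) ≤ ip μ (mn (hs adj) η') (mn (hs adj) η')) ∧
      vl adj μ S = ip μ (mn (hs adj) η) (mn (hs adj) η) := by
  refine ⟨(exists_min_law (μ := μ) (hs adj) h).choose,
    (exists_min_law (μ := μ) (hs adj) h).choose_spec.1,
    (exists_min_law (μ := μ) (hs adj) h).choose_spec.2, ?_⟩
  unfold vl
  rw [dif_pos h]

end

theorem hom (hNM : NearMaxStmt) : HomogStmt := by
  classical
  intro G R μ δ hR hμ hδ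
  have hΨ : ∀ S : ∀ n, Set (G.V n), (Rich G S ∧ Sub G S R) →
      ∀ᶠ n in UU, 0 ≤ vl (G.adj n) (μ n) (S n) ∧ vl (G.adj n) (μ n) (S n) ≤ 1 := by
    rintro S ⟨hS, -⟩
    filter_upwards [hS 0] with n hn
    obtain ⟨η, h1, -, h3⟩ := vl_spec (G.adj n) (μ n) (S := S n) hn.nonempty
    rw [h3]
    exact ⟨ip_nonneg (hμ n).1 _, ip_self_le_one (hμ n) (mn_nonneg _ h1) (mn_le_one _ h1)⟩
  obtain ⟨S, ⟨hS, hSR⟩, -, hmax⟩ := hNM (∀ n, Set (G.V n)) (fun S => Rich G S ∧ Sub G S R)
    (fun S' S => Sub G S' S) (fun S => Sub.refl S) (fun S S' S'' h h' => Sub.trans h h')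
    (fun n S => vl (G.adj n) (μ n) (S n)) hΨ (δ ^ 2) (by positivity) R ⟨hR, Sub.refl R⟩
  -- the profile
  have hf : ∀ n, ∃ f : G.V n → ℝ, (∀ a, 0 ≤ f a ∧ f a ≤ 1) ∧ ((S n).Nonempty →
      ∃ η, LawOn (S n) η ∧ (∀ η', LawOn (S n) η' →
        ip (μ n) (mn (hs (G.adj n)) η) (mn (hs (G.adj n)) η) ≤
          ip (μ n) (mn (hs (G.adj n)) η') (mn (hs (G.adj n)) η')) ∧
        vl (G.adj n) (μ n) (S n) = ip (μ n) (mn (hs (G.adj n)) η) (mn (hs (G.adj n)) η) ∧
        f = mn (hs (G.adj n)) η) := by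
    intro n
    by_cases h : (S n).Nonempty
    · obtain ⟨η, h1, h2, h3⟩ := vl_spec (G.adj n) (μ n) h
      exact ⟨mn (hs (G.adj n)) η, fun a => ⟨mn_nonneg _ h1 a, mn_le_one _ h1 a⟩,
        fun _ => ⟨η, h1, h2, h3, rfl⟩⟩
    · exact ⟨fun _ => 0, fun a => ⟨le_rfl, zero_le_one⟩, fun h' => absurd h' h⟩
  choose f hf01 hfS using hf
  refine ⟨f, S, hS, hSR, fun n a => hf01 n a, ?_⟩
  intro g hg hB
  set B : ∀ n, Set (G.V n) := fun n => {s | s ∈ S n ∧
    δ < ex (μ n) (fun a => g n a * (ind (G.adj n a s) - f n a))} with hBdef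
  have hBS : Sub G B S := fun n s hs => hs.1
  have hev := hmax B ⟨hB, hBS.trans hSR⟩ hBS
  obtain ⟨n, hn1, hn2⟩ := (hev.and (hB 0)).exists
  have hBne : (B n).Nonempty := hn2.nonempty
  have hSne : (S n).Nonempty := hBne.mono (hBS n)
  obtain ⟨η, h1, h2, h3, h4⟩ := hfS n hSne
  obtain ⟨η', h1', -, h3'⟩ := vl_spec (G.adj n) (μ n) hBne
  have hη'S : LawOn (S n) η' := ⟨h1'.1, h1'.2.1, fun s hs => h1'.2.2 s (fun h => hs (hBS n h))⟩
  have hpar := min_law_parallelogram (μ := μ n) (hs (G.adj n)) h1 hη'S h2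
  rw [← h3, ← h3', ← h4] at hpar
  set fB := mn (hs (G.adj n)) η' with hfB
  have hsq : ip (μ n) (fB - f n) (fB - f n) ≤ δ ^ 2 := by linarith
  -- average over `η'`
  have havg : δ < ip (μ n) (g n) (fB - f n) := by
    have e1 : ip (μ n) (g n) (fB - f n) =
        ∑ s, η' s * ex (μ n) (fun a => g n a * (ind (G.adj n a s) - f n a)) := by
      unfold ip ex
      simp only [Finset.mul_sum]
      rw [Finset.sum_comm]
      refine Finset.sum_congr rfl fun a _ => ?_
      have e2 : (fB - f n) a = ∑ s, η' s * (ind (G.adj n a s) - f n a) := by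
        simp only [Pi.sub_apply, mul_sub, Finset.sum_sub_distrib]
        rw [← Finset.sum_mul, h1'.2.1, one_mul]
        rfl
      rw [e2, Finset.mul_sum, Finset.mul_sum]
      exact Finset.sum_congr rfl fun s _ => by ring
    rw [e1]
    have e3 : δ = ∑ s, η' s * δ := by rw [← Finset.sum_mul, h1'.2.1, one_mul]
    rw [e3]
    obtain ⟨s0, hs0⟩ : ∃ s, 0 < η' s := by
      by_contra hcon
      push Not at hcon
      have : ∑ s, η' s ≤ 0 := Finset.sum_nonpos fun s _ => hcon s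
      rw [h1'.2.1] at this
      linarith
    refine Finset.sum_lt_sum (fun s _ => ?_) ⟨s0, mem_univ _, ?_⟩
    · rcases (h1'.1 s).lt_or_eq with h | h
      · have hsB : s ∈ B n := by
          by_contra hcon
          rw [h1'.2.2 s hcon] at h
          exact lt_irrefl _ h
        exact mul_le_mul_of_nonneg_left hsB.2.le h.le
      · rw [← h, zero_mul, zero_mul]
    · have hsB : s0 ∈ B n := by
        by_contra hcon
        rw [h1'.2.2 s0 hcon] at hs0
        exact lt_irrefl _ hs0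
      exact mul_lt_mul_of_pos_left hsB.2 hs0
  have hCS := ip_sq_le (hμ n).1 (g n) (fB - f n)
  have hgg : ip (μ n) (g n) (g n) ≤ 1 := by
    unfold ip
    rw [← (hμ n).2]
    refine Finset.sum_le_sum fun x _ => ?_
    have h5 := (hμ n).1 x
    have h6 : g n x * g n x ≤ 1 := by
      have := hg n x
      rw [abs_le] at this
      nlinarith
    exact mul_le_of_le_one_right h5 h6
  have h7 := ip_nonneg (hμ n).1 (fB - f n)
  have h8 := ip_nonneg (hμ n).1 (g n)
  have h9 : (ip (μ n) (g n) (fB - f n)) ^ 2 ≤ δ ^ 2 := by nlinarith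
  nlinarith

end Pool.Agent.H50.DM
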