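import Pool.Agent.H71.DM.Targets
import Pool.Agent.H71.DM.Basic
import Pool.Agent.H51.Tour.Prob

set_option autoImplicit false

/-!
# MM: minimax for a pair of sets
-/

namespace Pool.Agent.H50.DM

open Pool.Agent.H71.DM Finset

theorem mm : MinimaxStmt := by
  classical
  intro V _ _ adj htot A B hA hB g
  rcases Pool.Agent.H51.Tour.minimax_alt (fun v => v ∈ A) (fun v => v ∈ B) hA hB
    (fun x y => ind (adj x y ∨ x = y)) g with
    ⟨u, ⟨hu0, hu1⟩, hus, hu⟩ | ⟨u, ⟨hu0, hu1⟩, hus, hu⟩
  · left
    refine ⟨u, ⟨hu0, hu1⟩, fun a ha => ?_, fun s hs => hu s hs⟩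
    by_contra hcon
    exact ha (hus a hcon)
  · right
    refine ⟨u, ⟨hu0, hu1⟩, fun a ha => ?_, fun s hs => ?_⟩
    · by_contra hcon
      exact ha (hus a hcon)
    · have h1 := hu s hs
      have h2 : (1 : ℝ) ≤ ∑ b, u b * ind (adj s b ∨ s = b) + pr u (fun a => adj a s ∨ a = s) := by
        unfold pr ex
        rw [← Finset.sum_add_distrib, ← hu1]
        refine Finset.sum_le_sum fun v _ => ?_
        have h0 := hu0 v
        have h3 : (1 : ℝ) ≤ ind (adj s v ∨ s = v) + ind (adj v s ∨ v = s) := by
          by_cases hsv : s = v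
          · rw [ind_true (Or.inr hsv), ind_true (Or.inr hsv.symm)]; norm_num
          · rcases htot s v hsv with h | h
            · rw [ind_true (Or.inl h)]
              linarith [ind_nonneg (adj v s ∨ v = s)]
            · rw [ind_true (P := adj v s ∨ v = s) (Or.inl h)]
              linarith [ind_nonneg (adj s v ∨ s = v)]
        nlinarith
      linarith

end Pool.Agent.H50.DM
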