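import Pool.Agent.H71.DM.Targets
import Pool.Agent.H71.DM.Basic

set_option autoImplicit false

/-!
# NM: near maximisation along the ultrafilter
-/

namespace Pool.Agent.H50.DM

open Pool.Agent.H71.DM Filter

theorem nm : NearMaxStmt := by
  intro α A le hrefl htrans Ψ h01 η hη x₀ hx₀
  by_contra hcon
  push Not at hcon
  have hstep : ∀ k : ℕ, ∃ a, A a ∧ le a x₀ ∧ ∀ᶠ n in UU, (k : ℝ) * η ≤ Ψ n a := by
    intro k
    induction k with
    | zero => exact ⟨x₀, hx₀, hrefl x₀, (h01 x₀ hx₀).mono fun n hn => by simpa using hn.1⟩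
    | succ k ih =>
      obtain ⟨a, haA, ha, hk⟩ := ih
      obtain ⟨a', haA', haa', hn⟩ := hcon a haA ha
      refine ⟨a', haA', htrans _ _ _ haa' ha, ?_⟩
      have h2 : ∀ᶠ n in UU, ¬ (Ψ n a' ≤ Ψ n a + η) := by
        rw [ev_not, Filter.not_eventually]
        simpa using hn
      filter_upwards [hk, h2] with n h3 h4
      push_cast
      push Not at h4
      linarith
  obtain ⟨k, hk⟩ := exists_nat_gt (1 / η)
  obtain ⟨a, haA, -, ha⟩ := hstep k
  obtain ⟨n, hn, hn'⟩ := (ha.and (h01 a haA)).exists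
  rw [div_lt_iff₀ hη] at hk
  linarith [hn'.2]

end Pool.Agent.H50.DM
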