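import Pool.Agent.H71.DM.Targets
import Pool.Agent.H71.DM.Basic

set_option autoImplicit false

/-!
# A finite poset whose poset tournament is `t`-Schütte

For a transitive relation `R` on `Fin m` with `R k l → k < l` the poset tournament has the arcs
`l → k` if `k < l` and `R k l`, and `k → l` if `k < l` and not `R k l`.
-/

namespace Pool.Agent.H50.DM

open Pool.Agent.H71.DM

open Finset

/-- sizes of the index sets of the levels. -/
def sz (t : ℕ) : ℕ → ℕ
  | 0 => 1
  | l + 1 => t * sz t l + 1

theorem sz_mono (t : ℕ) (ht : 1 ≤ t) : Monotone (sz t) := by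
  apply monotone_nat_of_le_succ
  intro n
  show sz t n ≤ t * sz t n + 1
  nlinarith [Nat.zero_le (sz t n)]

theorem exists_poset (t : ℕ) : ∃ (m : ℕ) (R : Fin m → Fin m → Prop),
    (∀ k l, R k l → k < l) ∧ (∀ a b c, R a b → R b c → R a c) ∧
    ∀ J : Finset (Fin m), J.card ≤ t →
      ∃ c, ∀ d ∈ J, (c < d ∧ ¬ R c d) ∨ (d < c ∧ R d c) := by
  classical
  rcases Nat.eq_zero_or_pos t with rfl | ht
  · refine ⟨1, fun _ _ => False, by simp, by simp, fun J hJ => ⟨0, ?_⟩⟩
    have : J = ∅ := by simpa using hJ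
    simp [this]
  set M : ℕ := t * sz t t + 1 with hM
  let X : Type := {x : Fin (t + 1) ×ₗ Fin (Fintype.card (Finset (Fin M))) //
    ((Fintype.equivFin (Finset (Fin M))).symm (ofLex x).2).card ≤ sz t (ofLex x).1}
  let lev : X → Fin (t + 1) := fun x => (ofLex x.1).1
  let St : X → Finset (Fin M) := fun x => (Fintype.equivFin (Finset (Fin M))).symm (ofLex x.1).2
  have hcard : ∀ x : X, (St x).card ≤ sz t (lev x) := fun x => x.2
  have hex : ∀ (l : Fin (t + 1)) (A : Finset (Fin M)), A.card ≤ sz t l →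
      ∃ x : X, lev x = l ∧ St x = A := by
    intro l A hA
    refine ⟨⟨toLex (l, Fintype.equivFin _ A), ?_⟩, rfl, ?_⟩
    · simpa using hA
    · simp [St]
  have hlt : ∀ x y : X, lev x < lev y → x < y := by
    intro x y h
    show x.1 < y.1
    rw [Prod.Lex.lt_iff]
    exact Or.inl h
  let e : Fin (Fintype.card X) ≃o X := Fintype.orderIsoFinOfCardEq X rfl
  refine ⟨Fintype.card X, fun k l => lev (e k) < lev (e l) ∧ St (e k) ⊆ St (e l), ?_, ?_, ?_⟩
  · rintro k l ⟨h, -⟩
    exact e.lt_iff_lt.mp (hlt _ _ h)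
  · rintro a b c ⟨h1, h2⟩ ⟨h3, h4⟩
    exact ⟨h1.trans h3, h2.trans h4⟩
  · intro J hJ
    -- a level which does not occur in `J`
    obtain ⟨l, hl⟩ : ∃ l : Fin (t + 1), ∀ d ∈ J, lev (e d) ≠ l := by
      by_contra hcon
      push Not at hcon
      have h1 : (univ : Finset (Fin (t + 1))) ⊆ J.image (fun d => lev (e d)) := by
        intro l _
        obtain ⟨d, hd, h⟩ := hcon l
        exact mem_image.mpr ⟨d, hd, h⟩
      have h2 := (card_le_card h1).trans card_image_le
      simp at h2
      omega
    -- a point which is in no set of `J`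
    obtain ⟨g, hg⟩ : ∃ g : Fin M, ∀ d ∈ J, g ∉ St (e d) := by
      by_contra hcon
      push Not at hcon
      have h1 : (univ : Finset (Fin M)) ⊆ J.biUnion (fun d => St (e d)) := by
        intro g _
        obtain ⟨d, hd, h⟩ := hcon g
        exact mem_biUnion.mpr ⟨d, hd, h⟩
      have h2 := (card_le_card h1).trans card_biUnion_le
      have h3 : ∑ d ∈ J, (St (e d)).card ≤ ∑ _d ∈ J, sz t t := by
        refine sum_le_sum fun d _ => (hcard _).trans ?_
        exact sz_mono t ht (Nat.lt_succ_iff.mp (lev (e d)).2)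
      rw [sum_const, smul_eq_mul] at h3
      have h4 : J.card * sz t t ≤ t * sz t t := Nat.mul_le_mul_right _ hJ
      simp at h2
      omega
    set A : Finset (Fin M) :=
      (J.filter (fun d => lev (e d) < l)).biUnion (fun d => St (e d)) ∪ {g} with hA
    have hAc : A.card ≤ sz t l := by
      rcases Nat.eq_zero_or_pos l.1 with h0 | h0
      · have : J.filter (fun d => lev (e d) < l) = ∅ := by
          apply filter_eq_empty_iff.mpr
          intro d _ h
          have : (lev (e d)).1 < l.1 := h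
          omega
        rw [hA, this, h0]
        simp [sz]
      · obtain ⟨l', hl'⟩ : ∃ l', l.1 = l' + 1 := ⟨l.1 - 1, by omega⟩
        rw [hl']
        show A.card ≤ t * sz t l' + 1
        refine (card_union_le _ _).trans ?_
        refine Nat.add_le_add ?_ (by simp)
        refine card_biUnion_le.trans ?_
        have h3 : ∑ d ∈ J.filter (fun d => lev (e d) < l), (St (e d)).card ≤
            ∑ _d ∈ J.filter (fun d => lev (e d) < l), sz t l' := by
          refine sum_le_sum fun d hd => (hcard _).trans ?_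
          apply sz_mono t ht
          have : (lev (e d)).1 < l.1 := (mem_filter.mp hd).2
          omega
        rw [sum_const, smul_eq_mul] at h3
        refine h3.trans (Nat.mul_le_mul_right _ ?_)
        exact (card_le_card (filter_subset _ _)).trans hJ
    obtain ⟨x, hx1, hx2⟩ := hex l A hAc
    refine ⟨e.symm x, fun d hd => ?_⟩
    rcases lt_or_gt_of_ne (hl d hd) with h | h
    · right
      refine ⟨?_, ?_, ?_⟩
      · rw [← e.lt_iff_lt, OrderIso.apply_symm_apply]
        exact hlt _ _ (by rw [hx1]; exact h)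
      · rw [OrderIso.apply_symm_apply, hx1]; exact h
      · rw [OrderIso.apply_symm_apply, hx2]
        intro z hz
        rw [hA, mem_union, mem_biUnion]
        exact Or.inl ⟨d, mem_filter.mpr ⟨hd, h⟩, hz⟩
    · left
      refine ⟨?_, ?_⟩
      · rw [← e.lt_iff_lt, OrderIso.apply_symm_apply]
        exact hlt _ _ (by rw [hx1]; exact h)
      · rintro ⟨-, h2⟩
        rw [OrderIso.apply_symm_apply, hx2] at h2
        have : g ∈ A := by rw [hA]; simp
        exact hg d hd (h2 this)

/-- POS: a poset tournament of large domination number. -/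
theorem pos : PosetStmt := by
  classical
  intro t
  obtain ⟨m, R, hR1, hR2, hR3⟩ := exists_poset t
  refine ⟨m, fun k l => ∃ (hk : k < m) (hl : l < m), R ⟨k, hk⟩ ⟨l, hl⟩, ?_, ?_, ?_⟩
  · rintro k l ⟨hk, hl, h⟩
    exact hR1 _ _ h
  · rintro k l n ⟨hk, hl, h⟩ ⟨hl', hn, h'⟩
    exact ⟨hk, hn, hR2 _ _ _ h h'⟩
  · intro e he hlt
    let J : Finset (Fin m) := univ.filter (fun j => (j : ℕ) ∈ e)
    have hJ : J.card ≤ t := by
      refine le_trans ?_ he
      have h1 : J.image (fun j : Fin m => (j : ℕ)) ⊆ e := by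
        intro x hx
        obtain ⟨j, hj, rfl⟩ := mem_image.mp hx
        exact (mem_filter.mp hj).2
      have h2 := card_le_card h1
      rwa [card_image_of_injective _ Fin.val_injective] at h2
    obtain ⟨c, hc⟩ := hR3 J hJ
    refine ⟨c, c.2, fun d hd => ?_⟩
    have hdm := hlt d hd
    rcases hc ⟨d, hdm⟩ (mem_filter.mpr ⟨mem_univ _, hd⟩) with ⟨h1, h2⟩ | ⟨h1, h2⟩
    · right
      refine ⟨h1, ?_⟩
      rintro ⟨hk, hl, h⟩
      exact h2 h
    · left
      exact ⟨hdm, c.2, h2⟩

end Pool.Agent.H50.DM
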