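import Pool.Agent.H71.DM.Targets
import Pool.Agent.H71.DM.Basic

set_option autoImplicit false

/-!
# A dense family of subsets of a finite set with large classes shatters a set which meets every
class in many elements (Pajor's inequality).
-/

namespace Pool.Agent.H50.DM

open Pool.Agent.H71.DM

open Finset

def PajorStmt : Prop := ∀ (ρ : ℝ) (g p : ℕ), 0 < ρ → ∃ G : ℕ,
    ∀ (I : Type) [Fintype I] [DecidableEq I] (cl : I → Fin p),
      (∀ l, G ≤ (univ.filter (fun i => cl i = l)).card) →
      ∀ W : Finset (Finset I), ρ * 2 ^ (Fintype.card I) ≤ (W.card : ℝ) →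
        ∃ J : Finset I, W.Shatters J ∧ ∀ l, g ≤ (J.filter (fun i => cl i = l)).card

theorem card_small_subsets {I : Type} [Fintype I] [DecidableEq I] (C : Finset I) (g : ℕ)
    (hC : 1 ≤ C.card) :
    (((univ : Finset (Finset I)).filter (fun J => (J ∩ C).card < g)).card : ℝ) * 2 ^ C.card ≤
      (g : ℝ) * (C.card : ℝ) ^ g * 2 ^ (Fintype.card I) := by
  classical
  let B : Finset (Finset I) := (range g).biUnion (fun i => C.powersetCard i)
  have h1 : ((univ : Finset (Finset I)).filter (fun J => (J ∩ C).card < g)).card ≤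
      (B ×ˢ (univ \ C).powerset).card := by
    refine Finset.card_le_card_of_injOn (fun J => (J ∩ C, J \ C)) ?_ ?_
    · intro J hJ
      have hJ' := (mem_filter.mp (Finset.mem_coe.mp hJ)).2
      simp only [Finset.coe_product, Set.mem_prod, Finset.mem_coe, B, mem_biUnion, mem_range,
        mem_powersetCard, mem_powerset]
      refine ⟨⟨_, hJ', inter_subset_right, rfl⟩, ?_⟩
      exact sdiff_subset_sdiff (subset_univ _) le_rfl
    · intro J _ J' _ h
      simp only [Prod.mk.injEq] at h
      rw [← Finset.sdiff_union_inter J C, h.1, h.2, Finset.sdiff_union_inter]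
  have h2 : (B.card : ℝ) ≤ g * (C.card : ℝ) ^ g := by
    have h3 : B.card ≤ ∑ i ∈ range g, C.card ^ g := by
      refine card_biUnion_le.trans (Finset.sum_le_sum fun i hi => ?_)
      rw [card_powersetCard]
      refine (Nat.choose_le_pow C.card i).trans ?_
      exact Nat.pow_le_pow_right hC (mem_range.mp hi).le
    rw [Finset.sum_const, card_range, smul_eq_mul] at h3
    exact_mod_cast h3
  have h3 : ((univ \ C).powerset.card : ℝ) * 2 ^ C.card = 2 ^ (Fintype.card I) := by
    rw [card_powerset, card_sdiff_of_subset (subset_univ C), card_univ]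
    push_cast
    rw [← pow_add, Nat.sub_add_cancel (card_le_univ C)]
  rw [card_product] at h1
  have h4 : (((univ : Finset (Finset I)).filter (fun J => (J ∩ C).card < g)).card : ℝ) ≤
      (B.card : ℝ) * ((univ \ C).powerset.card : ℝ) := by exact_mod_cast h1
  calc (((univ : Finset (Finset I)).filter (fun J => (J ∩ C).card < g)).card : ℝ) * 2 ^ C.card
      ≤ (B.card : ℝ) * ((univ \ C).powerset.card : ℝ) * 2 ^ C.card :=
        mul_le_mul_of_nonneg_right h4 (by positivity)
    _ = (B.card : ℝ) * 2 ^ (Fintype.card I) := by rw [mul_assoc, h3]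
    _ ≤ _ := mul_le_mul_of_nonneg_right h2 (by positivity)

theorem pajor : PajorStmt := by
  classical
  intro ρ g p hρ
  -- n ^ g / 2 ^ n → 0
  have hlim : Filter.Tendsto (fun n : ℕ => (n : ℝ) ^ g / (2 : ℝ) ^ n) Filter.atTop (nhds 0) :=
    tendsto_pow_const_div_const_pow_of_one_lt g (by norm_num)
  have hev : ∀ᶠ n : ℕ in Filter.atTop, (n : ℝ) ^ g / (2 : ℝ) ^ n < ρ / ((p : ℝ) * g + 1) :=
    hlim.eventually (gt_mem_nhds (by positivity))
  obtain ⟨G, hG⟩ := Filter.eventually_atTop.mp hev
  refine ⟨max G 1, ?_⟩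
  intro I _ _ cl hcl W hW
  by_contra hcon
  push Not at hcon
  let C : Fin p → Finset I := fun l => univ.filter (fun i => cl i = l)
  have hsub : W.shatterer ⊆ (univ : Finset (Fin p)).biUnion (fun l =>
      (univ : Finset (Finset I)).filter (fun J => (J ∩ C l).card < g)) := by
    intro J hJ
    obtain ⟨l, hl⟩ := hcon J (mem_shatterer.mp hJ)
    refine mem_biUnion.mpr ⟨l, mem_univ _, mem_filter.mpr ⟨mem_univ _, ?_⟩⟩
    have : J ∩ C l = J.filter (fun i => cl i = l) := by
      ext i; simp [C]
    rwa [this]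
  have h1 : (W.card : ℝ) ≤ ∑ l : Fin p,
      (((univ : Finset (Finset I)).filter (fun J => (J ∩ C l).card < g)).card : ℝ) := by
    have := (card_le_card_shatterer W).trans ((card_le_card hsub).trans card_biUnion_le)
    exact_mod_cast this
  have h2 : ∀ l : Fin p,
      (((univ : Finset (Finset I)).filter (fun J => (J ∩ C l).card < g)).card : ℝ) ≤
        (g : ℝ) * (ρ / ((p : ℝ) * g + 1)) * 2 ^ (Fintype.card I) := by
    intro l
    have hc : max G 1 ≤ (C l).card := hcl l
    have hc1 : 1 ≤ (C l).card := (le_max_right _ _).trans hc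
    have h3 := card_small_subsets (C l) g hc1
    have h4 := (hG (C l).card ((le_max_left _ _).trans hc)).le
    have hpos : (0 : ℝ) < 2 ^ (C l).card := by positivity
    rw [div_le_iff₀ hpos] at h4
    have h5 : (((univ : Finset (Finset I)).filter (fun J => (J ∩ C l).card < g)).card : ℝ) *
        2 ^ (C l).card ≤ ((g : ℝ) * (ρ / ((p : ℝ) * g + 1)) * 2 ^ (Fintype.card I)) *
          2 ^ (C l).card := by
      refine h3.trans ?_
      calc (g : ℝ) * ((C l).card : ℝ) ^ g * 2 ^ (Fintype.card I)
          ≤ (g : ℝ) * (ρ / ((p : ℝ) * g + 1) * 2 ^ (C l).card) * 2 ^ (Fintype.card I) := by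
            gcongr
        _ = _ := by ring
    exact le_of_mul_le_mul_right h5 hpos
  have h3 : (W.card : ℝ) ≤ (p : ℝ) * ((g : ℝ) * (ρ / ((p : ℝ) * g + 1)) * 2 ^ (Fintype.card I)) := by
    refine h1.trans ((Finset.sum_le_sum fun l _ => h2 l).trans ?_)
    simp
  have h4 : (p : ℝ) * ((g : ℝ) * (ρ / ((p : ℝ) * g + 1)) * 2 ^ (Fintype.card I)) <
      ρ * 2 ^ (Fintype.card I) := by
    have h5 : (0 : ℝ) < 2 ^ (Fintype.card I) := by positivity
    have h6 : (p : ℝ) * ((g : ℝ) * (ρ / ((p : ℝ) * g + 1))) < ρ := by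
      have h7 : (0 : ℝ) < (p : ℝ) * g + 1 := by positivity
      have h8 : (p : ℝ) * ((g : ℝ) * (ρ / ((p : ℝ) * g + 1))) =
          ρ * (((p : ℝ) * g) / ((p : ℝ) * g + 1)) := by
        field_simp
      rw [h8]
      have h9 : ((p : ℝ) * g) / ((p : ℝ) * g + 1) < 1 := by
        rw [div_lt_one h7]; linarith
      nlinarith
    calc _ = (p : ℝ) * ((g : ℝ) * (ρ / ((p : ℝ) * g + 1))) * 2 ^ (Fintype.card I) := by ring
      _ < _ := mul_lt_mul_of_pos_right h6 h5
  linarith

/-- SHT: shattering with many elements in every class. -/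
theorem sht : ShatterStmt := by
  classical
  intro p g ϱ hϱ
  obtain ⟨G, hG⟩ := pajor ϱ g p hϱ
  refine ⟨G, fun W hW => ?_⟩
  let Φ : (Fin p → Fin G → Bool) → Finset (Fin p × Fin G) :=
    fun w => univ.filter (fun x => w x.1 x.2 = true)
  have hΦ : Function.Injective Φ := by
    intro w w' h
    funext i j
    have h1 : (i, j) ∈ Φ w ↔ (i, j) ∈ Φ w' := by rw [h]
    simp only [Φ, mem_filter, mem_univ, true_and] at h1
    exact Bool.eq_iff_iff.mpr h1
  have hcl : ∀ l : Fin p, G ≤ (univ.filter (fun x : Fin p × Fin G => x.1 = l)).card := by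
    intro l
    have h1 : (univ.image (fun j : Fin G => (l, j))) ⊆
        univ.filter (fun x : Fin p × Fin G => x.1 = l) := by
      intro x hx
      obtain ⟨j, -, rfl⟩ := mem_image.mp hx
      simp
    have h2 := card_le_card h1
    rw [card_image_of_injective _ (fun a b h => by simpa using h), card_univ, Fintype.card_fin] at h2
    exact h2
  have hcardW : ϱ * 2 ^ (Fintype.card (Fin p × Fin G)) ≤ ((W.image Φ).card : ℝ) := by
    rw [card_image_of_injective _ hΦ]
    refine le_trans (le_of_eq ?_) hW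
    congr 1
    rw [Fintype.card_prod, Fintype.card_fin, Fintype.card_fin, Fintype.card_fun, Fintype.card_fun,
      Fintype.card_fin, Fintype.card_fin, Fintype.card_bool]
    push_cast
    rw [← pow_mul, mul_comm p G]
  obtain ⟨J, hJ, hJc⟩ := hG (Fin p × Fin G) (fun x => x.1) hcl (W.image Φ) hcardW
  -- enumerate `g` elements of every class
  have he : ∀ i : Fin p, ∃ e : Fin g → Fin G, Function.Injective e ∧ ∀ j, (i, e j) ∈ J := by
    intro i
    let A : Finset (Fin G) := univ.filter (fun j => (i, j) ∈ J)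
    have hA : g ≤ A.card := by
      refine (hJc i).trans ?_
      have h1 : J.filter (fun x => x.1 = i) ⊆ A.image (fun j => (i, j)) := by
        rintro ⟨a, b⟩ hx
        rw [mem_filter] at hx
        obtain ⟨hx1, hx2⟩ := hx
        simp only at hx2
        subst hx2
        exact mem_image.mpr ⟨b, mem_filter.mpr ⟨mem_univ _, hx1⟩, rfl⟩
      exact (card_le_card h1).trans card_image_le
    obtain ⟨B, hBA, hB⟩ := exists_subset_card_eq hA
    let f := B.orderEmbOfFin hB
    refine ⟨f, f.injective, fun j => ?_⟩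
    exact (mem_filter.mp (hBA (B.orderEmbOfFin_mem hB j))).2
  choose e heinj heJ using he
  refine ⟨e, fun z => ?_⟩
  let T : Finset (Fin p × Fin G) := J.filter (fun x => ∃ j, x.2 = e x.1 j ∧ z x.1 j = true)
  obtain ⟨u, hu, hJu⟩ := hJ (filter_subset _ _ : T ⊆ J)
  obtain ⟨w, hw, rfl⟩ := mem_image.mp hu
  refine ⟨w, hw, fun i j => ?_⟩
  have h1 : w i (e i j) = true ↔ z i j = true := by
    have h2 : (i, e i j) ∈ J ∩ Φ w ↔ (i, e i j) ∈ T := by rw [hJu]
    rw [mem_inter] at h2
    have h3 : (i, e i j) ∈ Φ w ↔ w i (e i j) = true := by simp [Φ]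
    have h4 : (i, e i j) ∈ T ↔ z i j = true := by
      simp only [T, mem_filter]
      constructor
      · rintro ⟨-, j', hj', hz⟩
        rwa [heinj i hj']
      · intro hz
        exact ⟨heJ i j, j, rfl, hz⟩
    rw [h3, h4] at h2
    constructor
    · intro h; exact h2.mp ⟨heJ i j, h⟩
    · intro h; exact (h2.mpr h).2
  exact Bool.eq_iff_iff.mpr h1

end Pool.Agent.H50.DM
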